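import Pool.Agent.Q57.DS.Fin

/-!
# The index of the Hodge classes over the motivated classes
-/

open CategoryTheory AlgebraicGeometry

open scoped TensorProduct

universe u

namespace Pool.Agent.Q57.HM

open Module
open Pool.Agent.H914 Pool.Agent.H914.VarClass Pool.Agent.H914.VarClass.Obj
  Pool.Agent.H914.WeilCohomology
open Pool.Agent.Y133.Half
open Pool.Agent.Y121
open Pool.Agent.Q57.DS
open Pool.Agent.Q50.MO (Motivated)

variable {k : Type u} [Field k] {𝒱 : VarClass k} {ops : CycleOps 𝒱}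

theorem h_hodge (T : AHS.HodgeTheory ops) (Y : 𝒱.Obj) (j : ℕ) (c : T.W.H Y)
    (h : Motivated T.W Y j c) : AHS.IsHodge T Y j c := by
  rw [mot_fun] at h
  exact Pool.Agent.Q50.MO.mot_hodge (T := AHS.toH T) h

theorem h_tower (T : AHS.HodgeTheory ops) (X : 𝒱.Obj) [Nontrivial (T.W.H X)] :
    ∃ N M : ℕ∞, 1 ≤ N ∧ 1 ≤ M ∧
      Index (fun n => dimP (AHS.IsHodge T) (pw X n)) (fun n => dimP (Motivated T.W) (pw X n)) N ∧
      Index (fun n => dimP (Motivated T.W) (pw X n)) (fun n => cycRk ops (pw X n)) M ∧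
      Index (fun n => dimP (AHS.IsHodge T) (pw X n)) (fun n => cycRk ops (pw X n)) (N * M) ∧
      (N = 1 ↔ ∀ n j c, AHS.IsHodge T (pw X n) j c → Motivated T.W (pw X n) j c) ∧
      (M = 1 ↔ ∀ n j c, Motivated T.W (pw X n) j c → IsAlg T.W (pw X n) j c) ∧
      (N ≠ ⊤ → GeneratedP (Motivated T.W) (AHS.IsHodge T) X N) := by
  simp only [mot_fun, isAlg_iff, generated_iff]
  have hX : Nontrivial ((AHS.toH T).W.H X) := inferInstanceAs (Nontrivial (T.W.H X))
  obtain ⟨N, M, h1, h2, h3, h4, h5, h6, h7, -, -, h8, -⟩ :=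
    (Pool.Agent.Q55.motPred T.W).tower (AH.hodgePred (AHS.toH T))
      (fun {_ _ _} h => Pool.Agent.Q50.MO.mot_hodge (T := AHS.toH T) h) X
      (fun n => Pool.Agent.Q57.DR.mot_nondeg (T := AHS.toH T) (pw X n))
  exact ⟨N, M, h1, h2, h3, h4, h5, h6, h7, h8⟩

end Pool.Agent.Q57.HM
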